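import Pool.Agent.Lib.MP_1620fb_al.Grn

/-!
# Co-amenable subgroups of `SL₂(ℤ[√2])` have full growth near the identity of each factor

Let `H` be a subgroup of `G = SL₂(ℤ[√2])` such that there is a `G`-invariant mean on `G / H`. Then for
every `δ > 0`, every `b < 2` and every `C` there is `Y ≥ 1` such that more than `C Y ^ b` elements `h`
of `H` satisfy `|h₁ - 1| ≤ δ` and `|h|₂ ≤ Y`, and the same with the roles of the two real places
exchanged. (The number of such elements of `G` is of the order of magnitude `Y ^ 2`.)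
-/

set_option autoImplicit false

namespace Pool.Agent.Results.MP_1620fb_al.LocalGrowth

open Pool.Agent.Lib.MP_1620fb_al

theorem result (H : Subgroup G) (hH : CoAmenable H) (δ b C : ℝ) (hδ : 0 < δ) (hb : b < 2) :
    (∃ Y : ℝ, 1 ≤ Y ∧
      C * Y ^ b < ({h : G | h ∈ H ∧ near (√2) δ h ∧ nm (-√2) h ≤ Y}.ncard : ℝ)) ∧
    (∃ Y : ℝ, 1 ≤ Y ∧
      C * Y ^ b < ({h : G | h ∈ H ∧ near (-√2) δ h ∧ nm (√2) h ≤ Y}.ncard : ℝ)) := by
  have h2 : (√2 : ℝ) ^ 2 = 2 := Real.sq_sqrt (by norm_num)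
  have h2' : (-√2 : ℝ) ^ 2 = 2 := by rw [neg_sq, h2]
  refine ⟨growth_near h2 H hH δ b C hδ hb, ?_⟩
  have h := growth_near h2' H hH δ b C hδ hb
  rw [neg_neg] at h
  exact h

end Pool.Agent.Results.MP_1620fb_al.LocalGrowth
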